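import Pool.Agent.H77.CollatzD

set_option autoImplicit false

/-!
# The average stopping time of the Collatz map on `F_2[x]` is `3 d + O(√d log d)`

Proof. The first `d` constant terms of the orbit of a uniform polynomial `f` of degree `d` under the
accelerated map `S` (`((x+1) f + 1)/x` or `f/x`) are independent fair bits; if `b` of them are `1` then
`S^d f` has degree `b` and `t_min(f) = d + b + t_min(S^d f)`, that is,
`t_min(f) - 3 d = (t_min(S^d f) - 3 b) + 4 (b - d/2)`. At most `2^(d-a)` polynomials of degree `d` are sent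
to a given polynomial of degree `a`. So the exceptional sets `|t_min - 3 d| > 30 λ √d + M` satisfy a
recursion, whose error term `2 exp(-2 λ²)` comes from the exponential moments of the binomial law.
-/

namespace Pool.Agent.Results.MP_d51b1e_co.ThreeTimesDegree

open Polynomial Filter Topology

/-- The Collatz map on `F_2[x]`: `(x + 1) f + 1` if the constant term of `f` is `1`, and `f / x` if it is
`0` (`divX` is the quotient by `x`). -/
noncomputable def T (f : (ZMod 2)[X]) : (ZMod 2)[X] := if f.coeff 0 = 1 then (X + 1) * f + 1 else f.divX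

/-- the stopping time `t_min(f)`, the least `k` with `T^k(f) = 1` -/
noncomputable def tmin (f : (ZMod 2)[X]) : ℕ := sInf {k : ℕ | T^[k] f = 1}

/-- the average stopping time in degree `d`: `ρ(d) = 2^(-d) ∑_{deg f = d} t_min(f)` -/
noncomputable def rho (d : ℕ) : ℝ := (∑ᶠ (f : (ZMod 2)[X]) (_ : f.degree = d), (tmin f : ℝ)) / 2 ^ d

theorem rho_eq (d : ℕ) : rho d = Pool.Agent.H77.CT2.rr d := by
  have h : {f : (ZMod 2)[X] | f.degree = d} = (Pool.Agent.Q74.FC.D d : Set ((ZMod 2)[X])) := by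
    ext f
    rw [Finset.mem_coe, Pool.Agent.Q74.FC.mem_D]
    rfl
  have h2 : (∑ᶠ (f : (ZMod 2)[X]) (_ : f.degree = d), (tmin f : ℝ)) =
      ∑ᶠ (f : (ZMod 2)[X]) (_ : f ∈ (Pool.Agent.Q74.FC.D d : Set ((ZMod 2)[X]))), (tmin f : ℝ) := by
    rw [← h]
    rfl
  unfold rho
  rw [h2, finsum_mem_coe_finset]
  rfl

/-- **The average stopping time is `3 d + O(√d log d)`.** Every nonzero polynomial over `F_2` reaches `1`;
`ρ(d)` grows linearly (Q1); more precisely `|ρ(d) - 3 d| ≤ C √d log d` for all large `d`, so that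
`ρ(d) / d → 3`; and for every `A` there is `C` such that for all large `d` the proportion of the polynomials
`f` of degree `d` with `|t_min(f) - 3 d| ≥ C √d log d` is at most `d^(-A)`. -/
theorem result :
    (∀ f : (ZMod 2)[X], f ≠ 0 → ∃ k : ℕ, T^[k] f = 1) ∧
    (∃ c₁ c₂ : ℝ, 0 < c₁ ∧ c₁ ≤ c₂ ∧ ∀ᶠ d : ℕ in atTop, c₁ * d ≤ rho d ∧ rho d ≤ c₂ * d) ∧
    (∃ C : ℝ, 0 < C ∧ ∀ᶠ d : ℕ in atTop, |rho d - 3 * d| ≤ C * (√(d : ℝ) * Real.log d)) ∧
    Tendsto (fun d : ℕ => rho d / d) atTop (𝓝 3) ∧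
    (∀ A : ℕ, ∃ C : ℝ, 0 < C ∧ ∀ᶠ d : ℕ in atTop,
      ({f : (ZMod 2)[X] | f.degree = d ∧
        C * (√(d : ℝ) * Real.log d) ≤ |(tmin f : ℝ) - 3 * d|}.ncard : ℝ) / 2 ^ d ≤ 1 / (d : ℝ) ^ A) := by
  classical
  have hav : ∃ C : ℝ, 0 < C ∧ ∀ᶠ d : ℕ in atTop, |rho d - 3 * d| ≤ C * (√(d : ℝ) * Real.log d) := by
    obtain ⟨C, hC0, hC⟩ := Pool.Agent.H77.CT2.average
    refine ⟨C, hC0, ?_⟩
    filter_upwards [hC] with d hd
    rw [rho_eq]
    exact hd
  have hlim : Tendsto (fun d : ℕ => rho d / d) atTop (𝓝 3) := by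
    obtain ⟨C, hC0, hC⟩ := hav
    have h1 : Tendsto (fun x : ℝ => Real.log x / x ^ ((1 : ℝ) / 2)) atTop (𝓝 0) :=
      (isLittleO_log_rpow_atTop (by norm_num : (0 : ℝ) < 1 / 2)).tendsto_div_nhds_zero
    have h2 := (h1.comp tendsto_natCast_atTop_atTop).const_mul C
    rw [mul_zero] at h2
    rw [tendsto_iff_dist_tendsto_zero]
    refine squeeze_zero' (Eventually.of_forall fun d => dist_nonneg) ?_ h2
    filter_upwards [hC, eventually_ge_atTop 1] with d hd hd1
    have hd0 : (0 : ℝ) < d := by exact_mod_cast hd1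
    have hs : √(d : ℝ) * √(d : ℝ) = d := Real.mul_self_sqrt hd0.le
    have hs0 : 0 < √(d : ℝ) := Real.sqrt_pos.2 hd0
    have e1 : rho d / d - 3 = (rho d - 3 * d) / d := by field_simp
    rw [Real.dist_eq, e1, abs_div, abs_of_pos hd0, div_le_iff₀ hd0]
    simp only [Function.comp_apply]
    rw [← Real.sqrt_eq_rpow]
    have e2 : C * (Real.log d / √(d : ℝ)) * d = C * (√(d : ℝ) * Real.log d) := by
      nth_rewrite 3 [← hs]
      field_simp
    rw [e2]
    exact hd
  refine ⟨fun f hf => ?_, ⟨2, 4, by norm_num, by norm_num, ?_⟩, hav, hlim, fun A => ?_⟩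
  · obtain ⟨k, _, hk⟩ := Pool.Agent.Q74.FC.reaches _ f hf rfl
    exact ⟨k, hk⟩
  · filter_upwards [hlim.eventually_lt_const (show (3 : ℝ) < 4 by norm_num),
      hlim.eventually_const_lt (show (2 : ℝ) < 3 by norm_num), eventually_ge_atTop 1] with d h4 h2 hd1
    have hd0 : (0 : ℝ) < d := by exact_mod_cast hd1
    rw [div_lt_iff₀ hd0] at h4
    rw [lt_div_iff₀ hd0] at h2
    exact ⟨h2.le, h4.le⟩
  · obtain ⟨C, hC0, hC⟩ := Pool.Agent.H77.CT2.conc A
    refine ⟨C, hC0, ?_⟩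
    filter_upwards [hC] with d hd
    have h1 : {f : (ZMod 2)[X] | f.degree = d ∧
        C * (√(d : ℝ) * Real.log d) ≤ |(tmin f : ℝ) - 3 * d|} =
        (((Pool.Agent.Q74.FC.D d).filter (fun f => C * (√(d : ℝ) * Real.log d) ≤
          |(Pool.Agent.Q74.FC.tm f : ℝ) - 3 * d|) : Finset ((ZMod 2)[X])) : Set ((ZMod 2)[X])) := by
      ext f
      rw [Finset.mem_coe, Finset.mem_filter, Pool.Agent.Q74.FC.mem_D]
      rfl
    rw [h1, Set.ncard_coe_finset]
    convert hd

end Pool.Agent.Results.MP_d51b1e_co.ThreeTimesDegree
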